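import Pool.Agent.Y507.Coi.Stm

/-!
# The isoperimetric property: product with an interval
-/

set_option autoImplicit false

open Set MeasureTheory
open scoped Matrix

namespace Pool.Agent.Y210.Coi

open Pool.Agent.W560.Coiso Pool.Agent.Y507.Coi

theorem dot_one {k : ℕ} (u : ℝ) (w : Fin (k + 1) → ℝ) (z : Fin (k + 2) → ℝ) :
    one u w ⬝ᵥ z = u * z 0 + w ⬝ᵥ (fun i => z i.succ) := by
  unfold dotProduct
  rw [Fin.sum_univ_succ]
  simp [one]

/-- a closed scalar path with speed at most `a G` has diameter at most `a / 2 ∫ G` -/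
theorem diam_le {T a : ℝ} {x x' G : ℝ → ℝ} (hx : ContinuousOn x (Icc 0 T))
    (hd : ∀ t ∈ Ioo 0 T, HasDerivAt x (x' t) t) (hx' : ContinuousOn x' (Icc 0 T))
    (hG : ContinuousOn G (Icc 0 T)) (h1 : ∀ t ∈ Icc 0 T, x' t ≤ a * G t)
    (h2 : ∀ t ∈ Icc 0 T, -x' t ≤ a * G t) (hcl : x T = x 0) :
    ∀ s ∈ Icc 0 T, ∀ t ∈ Icc 0 T, x t - x s ≤ a / 2 * ∫ r in (0 : ℝ)..T, G r := by
  have haG : ContinuousOn (fun t => a * G t) (Icc 0 T) := continuousOn_const.mul hG
  have key : ∀ s t : ℝ, 0 ≤ s → s ≤ t → t ≤ T →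
      x t - x s ≤ a / 2 * (∫ r in (0 : ℝ)..T, G r) ∧
      x s - x t ≤ a / 2 * (∫ r in (0 : ℝ)..T, G r) := by
    intro s t hs hst ht
    have u1 := path_le (T := T) hx hd hx' haG h1 hs hst ht
    have u2 := path_le (T := T) (F := fun t => -x t) hx.neg (fun t ht => (hd t ht).neg) hx'.neg
      haG h2 hs hst ht
    have v1 := path_le (T := T) hx hd hx' haG h1 le_rfl hs (hst.trans ht)
    have v2 := path_le (T := T) (F := fun t => -x t) hx.neg (fun t ht => (hd t ht).neg) hx'.neg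
      haG h2 le_rfl hs (hst.trans ht)
    have w1 := path_le (T := T) hx hd hx' haG h1 (hs.trans hst) ht le_rfl
    have w2 := path_le (T := T) (F := fun t => -x t) hx.neg (fun t ht => (hd t ht).neg) hx'.neg
      haG h2 (hs.trans hst) ht le_rfl
    simp only [intervalIntegral.integral_const_mul, intervalIntegral.integral_same] at u1 u2 v1 v2 w1 w2
    constructor <;> linarith
  intro s hs t ht
  rcases le_total s t with h | h
  · exact (key s t hs.1 h ht.2).1
  · exact (key t s ht.1 h hs.2).2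

theorem thm : S_ISOI := by
  intro k I J _ _ κ τ hiso T q β hT hβc hβ0 hqc hqd hclosed
  have hp := psi_gt
  obtain ⟨c, hc⟩ : ∃ c : ℝ, c = 1 + 2 * psi := ⟨_, rfl⟩
  have hc0 : 0 < c := by linarith
  rw [← hc] at hiso ⊢
  -- the components of the velocity
  have d0 : ∀ t ∈ Ioo 0 T, HasDerivAt (fun t => q t 0)
      (4 / c * (β (Sum.inl true) t - β (Sum.inl false) t)) t := by
    intro t ht
    refine (hasDerivAt_pi.1 (hqd t ht) 0).congr_deriv ?_
    rw [Finset.sum_apply, Fintype.sum_sum_type, Fintype.sum_bool]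
    simp only [ti, one, Sum.elim_inl, Sum.elim_inr, Pi.smul_apply, smul_eq_mul, Fin.cons_zero,
      mul_zero, Finset.sum_const_zero, if_true, ← hc]
    simp
    ring
  have d1 : ∀ t ∈ Ioo 0 T, HasDerivAt (fun t => (fun i : Fin (k + 1) => q t i.succ))
      (∑ j, β (Sum.inr j) t • τ j) t := by
    intro t ht
    refine hasDerivAt_pi.2 fun i => ?_
    refine (hasDerivAt_pi.1 (hqd t ht) i.succ).congr_deriv ?_
    rw [Finset.sum_apply, Finset.sum_apply, Fintype.sum_sum_type, Fintype.sum_bool]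
    simp [ti, one]
  have c0 : ContinuousOn (fun t => q t 0) (Icc 0 T) := continuousOn_pi.1 hqc 0
  have c1 : ContinuousOn (fun t => (fun i : Fin (k + 1) => q t i.succ)) (Icc 0 T) :=
    continuousOn_pi.2 fun i => continuousOn_pi.1 hqc i.succ
  have b1 := hβc (Sum.inl true)
  have b2 := hβc (Sum.inl false)
  obtain ⟨v, hv⟩ := hiso T (fun t => (fun i : Fin (k + 1) => q t i.succ))
    (fun j => β (Sum.inr j)) hT (fun j => hβc _) (fun j => hβ0 _) c1 d1
    (fun i hi => hclosed i.succ (fun h => hi (by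
      apply Fin.succ_injective
      rw [h, Fin.succ_last])))
  set G1 : ℝ → ℝ := fun t => β (Sum.inl true) t + β (Sum.inl false) t with hG1
  have hG1c : ContinuousOn G1 (Icc 0 T) := b1.add b2
  have hdi : ∀ s ∈ Icc 0 T, ∀ t ∈ Icc 0 T,
      q t 0 - q s 0 ≤ 4 / c / 2 * ∫ r in (0 : ℝ)..T, G1 r := by
    refine diam_le (x := fun t => q t 0) c0 d0 (continuousOn_const.mul (b1.sub b2)) hG1c
      (fun t ht => ?_) (fun t ht => ?_) (hclosed 0 (by
        intro h
        have := congrArg Fin.val h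
        simp at this))
    · have h0 := hβ0 (Sum.inl false) t ht
      refine mul_le_mul_of_nonneg_left ?_ (by positivity)
      simp only [hG1]; linarith
    · have h0 := hβ0 (Sum.inl true) t ht
      rw [← mul_neg]
      refine mul_le_mul_of_nonneg_left ?_ (by positivity)
      simp only [hG1]; linarith
  have hne : (Icc (0 : ℝ) T).Nonempty := ⟨0, le_rfl, hT⟩
  obtain ⟨ta, hta, hmax⟩ := isCompact_Icc.exists_isMaxOn hne c0
  obtain ⟨tb, htb, hmin⟩ := isCompact_Icc.exists_isMinOn hne c0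
  have hab := hdi tb htb ta hta
  set L1 := ∫ r in (0 : ℝ)..T, G1 r with hL1
  have hG1i : IntervalIntegrable G1 volume 0 T :=
    ContinuousOn.intervalIntegrable (by rwa [uIcc_of_le hT])
  have hG2c : ContinuousOn (fun t => ∑ j, β (Sum.inr j) t) (Icc 0 T) :=
    continuousOn_finsetSum _ fun j _ => hβc _
  have hG2i : IntervalIntegrable (fun t => ∑ j, β (Sum.inr j) t) volume 0 T :=
    ContinuousOn.intervalIntegrable (by rwa [uIcc_of_le hT])
  have hL : ∫ t in (0 : ℝ)..T, ∑ j, β j t = L1 + ∫ t in (0 : ℝ)..T, ∑ j, β (Sum.inr j) t := by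
    rw [hL1, ← intervalIntegral.integral_add hG1i hG2i]
    congr 1
    funext t
    rw [Fintype.sum_sum_type, Fintype.sum_bool]
  refine ⟨one (-(q ta 0 + q tb 0) / 2) v, fun t ht i => ?_⟩
  have h1 : q t 0 ≤ q ta 0 := hmax ht
  have h2 : q tb 0 ≤ q t 0 := hmin ht
  have hv' := hv t ht i.2
  rw [hL, add_div]
  show one (if i.1 then 1 else -1) (κ i.2) ⬝ᵥ _ ≤ _
  rw [dot_one]
  refine add_le_add ?_ ?_
  · show (if i.1 = true then (1 : ℝ) else -1) * (q t 0 + -(q ta 0 + q tb 0) / 2) ≤ L1 / c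
    have e : 4 / c / 2 * L1 = 2 * (L1 / c) := by ring
    rw [e] at hab
    split_ifs <;> linarith
  · exact hv'

end Pool.Agent.Y210.Coi
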